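import Pool.Agent.Helper16.CZ.Stmts
import Pool.Agent.Helper35.BZ.PDC

/-!
# Module TPD: the tower has the property `PD`
-/

open Finset Filter MeasureTheory Topology
open scoped ComplexConjugate InnerProductSpace

namespace Pool.Agent.Helper16.CZ

open Pool.Agent.Helper16.AZ (T E Op mm)
open Pool.Agent.Helper16.MD (MS PB Rich)
open Pool.Agent.Helper16.BZ (PD pdc_fc pdc_app pdc_mass pdc_sub pdc_high pdc_zero pdc_sq pdc_lim)
open UnitAddTorus (mFourier)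

theorem st_TPD (h1 : ST_TPT) (h2 : ST_TCN) (h3 : AZ.ST_FPV) (h4 : AZ.ST_TLR) : ST_TPD := by
  intro r lev D ψ S hS κ hκ
  obtain ⟨K₀, hK⟩ : ∃ K₀ : ℕ, ∀ j, lev j ≤ K₀ :=
    ⟨Finset.univ.sup lev, fun j => Finset.le_sup (Finset.mem_univ j)⟩
  have hr0 : (0 : ℝ) ≤ r := Nat.cast_nonneg r
  obtain ⟨δ, hδ, hδ2⟩ : ∃ δ : ℝ, 0 < δ ∧ (r : ℝ) * δ ^ 2 ≤ κ / 16 := by
    refine ⟨Real.sqrt (κ / (16 * (r + 1))), by positivity, ?_⟩
    rw [Real.sq_sqrt (by positivity), mul_div_assoc', div_le_div_iff₀ (by positivity) (by norm_num)]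
    nlinarith
  obtain ⟨e1, he1, he3, heκ⟩ : ∃ e1 : ℝ, 0 < e1 ∧ e1 ≤ 1 / 3 ∧ e1 ≤ κ / 96 :=
    ⟨min (1 / 3) (κ / 96), by positivity, min_le_left _ _, min_le_right _ _⟩
  have hlog : 0 < Real.log 2 := Real.log_pos one_lt_two
  refine ⟨κ * Real.log 2 / 128, δ, by positivity, hδ, ?_⟩
  obtain ⟨I₀, hI⟩ := eventually_atTop.1 (pdc_lim (κ / 8) (16 * ((K₀ : ℝ) + 1))
    (16 * ((K₀ : ℝ) + 1 + 1)) (by positivity))
  refine ⟨max I₀ 1, fun i hi hrich Q hQ F hF x => ?_⟩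
  have hi0 := hI i (le_of_max_le_left hi)
  have hi1 : 1 ≤ i := le_of_max_le_right hi
  have hiR : (0 : ℝ) < i := by exact_mod_cast hi1
  have h2i : (0 : ℝ) < 2 ^ i := by positivity
  obtain ⟨B, hB⟩ : ∃ B : ℝ, B = ((PB 1 i).card : ℝ) := ⟨_, rfl⟩
  obtain ⟨q, hq⟩ : ∃ q : ℝ, q = (Q.card : ℝ) := ⟨_, rfl⟩
  have hq0 : 0 ≤ q := by rw [hq]; exact Nat.cast_nonneg _
  have hqB : q ≤ B := by
    rw [hq, hB]
    exact_mod_cast Finset.card_le_card hQ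
  have hrR : (2 : ℝ) ^ i ≤ 4 * i * B := by
    rw [hB]
    exact_mod_cast hrich
  have hB1 : 1 ≤ B := by
    have h5 : 0 < (PB 1 i).card := by
      rcases Nat.eq_zero_or_pos (PB 1 i).card with h | h
      · unfold Rich at hrich
        rw [h, mul_zero] at hrich
        exact absurd hrich (not_le.2 (by positivity))
      · exact h
    rw [hB]
    exact_mod_cast h5
  -- approximations
  have happ : ∀ p, ∃ c : (Fin r → ℤ) →₀ ℂ, p ∈ Q →
      ∀ x, ‖F p x - ∑ X ∈ c.support, c X * mFourier X x‖ ≤ e1 := by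
    intro p
    by_cases hp : p ∈ Q
    · obtain ⟨c, hc⟩ := pdc_app (F p) (hF p hp).1 e1 he1
      exact ⟨c, fun _ => hc⟩
    · exact ⟨0, fun h => absurd h hp⟩
  choose c hc using happ
  obtain ⟨Fs, hFs⟩ : ∃ Fs : Finset (Fin r → ℤ),
      Fs = insert 0 (Q.biUnion fun p => (c p).support) := ⟨_, rfl⟩
  have h0 : (0 : Fin r → ℤ) ∈ Fs := by
    rw [hFs]
    exact Finset.mem_insert_self _ _
  obtain ⟨G, hGd⟩ : ∃ G : ℕ → T r → ℂ, G = fun p θ => ∑ X ∈ Fs, c p X * mFourier X θ := ⟨_, rfl⟩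
  have hGa : ∀ p θ, G p θ = ∑ X ∈ Fs, c p X * mFourier X θ := fun p θ => by rw [hGd]
  have hGc : ∀ p, Continuous (G p) := by
    intro p
    rw [hGd]
    exact continuous_finsetSum _ fun X _ => continuous_const.mul (mFourier X).continuous
  have hGF : ∀ p ∈ Q, ∀ x, ‖F p x - G p x‖ ≤ e1 := by
    intro p hp x
    have e : G p x = ∑ X ∈ (c p).support, c p X * mFourier X x := by
      rw [hGa]
      symm
      refine Finset.sum_subset ?_ ?_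
      · intro X hX
        rw [hFs]
        exact Finset.mem_insert_of_mem (Finset.mem_biUnion.2 ⟨p, hp, hX⟩)
      · intro X _ hX
        rw [Finsupp.notMem_support_iff.1 hX, zero_mul]
    rw [e]
    exact hc p hp x
  have hG1 : ∀ p ∈ Q, ∀ x, ‖G p x‖ ≤ 4 / 3 := by
    intro p hp x
    have h5 := norm_sub_norm_le (G p x) (F p x)
    rw [norm_sub_rev] at h5
    have h6 := hGF p hp x
    have h7 := (hF p hp).2.1 x
    linarith
  have hfc : ∀ p, ∀ X ∈ Fs, AZ.fc (G p) X = c p X := by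
    intro p X hX
    rw [hGd]
    exact pdc_fc Fs (fun X => c p X) X hX
  -- the parameters
  obtain ⟨m, hm⟩ : ∃ m : ℕ, m = ⌈κ / 128 * 2 ^ i⌉₊ := ⟨_, rfl⟩
  have hm1 : κ / 128 * 2 ^ i ≤ m := by
    rw [hm]
    exact Nat.le_ceil _
  have hm2 : (m : ℝ) ≤ κ / 128 * 2 ^ i + 1 := by
    rw [hm]
    exact (Nat.ceil_lt_add_one (by positivity)).le
  obtain ⟨n₀, hn₀⟩ : ∃ n₀ : ℕ, n₀ = ((i + 1) * (K₀ + 1) + m) / i := ⟨_, rfl⟩
  have hn : 4 * (n₀ : ℝ) * q ≤ κ / 4 * B ^ 2 := by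
    have h5 : (n₀ : ℝ) * i ≤ ((i : ℝ) + 1) * (K₀ + 1) + m := by
      have h6 : n₀ * i ≤ (i + 1) * (K₀ + 1) + m := by
        rw [hn₀]
        exact Nat.div_mul_le_self _ _
      exact_mod_cast h6
    have h6 : (n₀ : ℝ) * i * 16 ≤ κ / 4 * 2 ^ i := by nlinarith
    have h7 : (n₀ : ℝ) * i * 16 ≤ κ / 4 * (4 * i * B) :=
      h6.trans (mul_le_mul_of_nonneg_left hrR (by positivity))
    have h8 : (n₀ : ℝ) * 16 ≤ κ / 4 * (4 * B) := by
      have h9 : (n₀ : ℝ) * 16 * i ≤ κ / 4 * (4 * B) * i := by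
        calc (n₀ : ℝ) * 16 * i = (n₀ : ℝ) * i * 16 := by ring
          _ ≤ κ / 4 * (4 * i * B) := h7
          _ = κ / 4 * (4 * B) * i := by ring
      exact le_of_mul_le_mul_right h9 hiR
    have h9 : 4 * (n₀ : ℝ) ≤ κ / 4 * B := by linarith
    calc 4 * (n₀ : ℝ) * q ≤ κ / 4 * B * q := mul_le_mul_of_nonneg_right h9 hq0
      _ ≤ κ / 4 * B * B := mul_le_mul_of_nonneg_left hqB (by positivity)
      _ = κ / 4 * B ^ 2 := by ring
  have hpos : ∀ p ∈ Q, 1 ≤ p := by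
    intro p hp
    exact ((Finset.mem_filter.1 (hQ hp)).2.1).one_lt.le
  have hmain := h1 r lev D ψ S x Q Fs (fun p X => c p X) (2 ^ m) n₀ (2 * (κ / 16) + 2 * e1 ^ 2)
    hS hpos h0 ?_ ?_ ?_ (κ / 8) (by positivity)
  · filter_upwards [hmain] with M hMM
    have hM0 : (0 : ℝ) ≤ M := Nat.cast_nonneg M
    rw [← hq] at hMM
    rw [← hB]
    have hF1 : ∑ y ∈ Icc 1 M, ‖∑ p ∈ Q, F p (S^[p * y] x)‖ ^ 2 ≤
        ∑ y ∈ Icc 1 M, (‖∑ p ∈ Q, ∑ X ∈ Fs, c p X * mFourier X (S^[p * y] x)‖ ^ 2 +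
          3 * e1 * q ^ 2) := by
      refine Finset.sum_le_sum fun y _ => ?_
      have e2 : ∑ p ∈ Q, ∑ X ∈ Fs, c p X * mFourier X (S^[p * y] x) =
          ∑ p ∈ Q, G p (S^[p * y] x) := Finset.sum_congr rfl fun p _ => (hGa p _).symm
      rw [e2]
      refine pdc_sq _ _ e1 q (norm_nonneg _) ?_ ?_ he1.le he3 hq0
      · have e3 : ∑ p ∈ Q, F p (S^[p * y] x) = ∑ p ∈ Q, G p (S^[p * y] x) +
            ∑ p ∈ Q, (F p (S^[p * y] x) - G p (S^[p * y] x)) := by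
          rw [← Finset.sum_add_distrib]
          refine Finset.sum_congr rfl fun p _ => ?_
          ring
        rw [e3]
        refine (norm_add_le _ _).trans (add_le_add le_rfl ?_)
        refine (norm_sum_le _ _).trans ?_
        refine (Finset.sum_le_sum fun p hp => hGF p hp _).trans ?_
        rw [Finset.sum_const, nsmul_eq_mul, ← hq, mul_comm]
      · refine (norm_sum_le _ _).trans ?_
        refine (Finset.sum_le_sum fun p hp => hG1 p hp _).trans ?_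
        rw [Finset.sum_const, nsmul_eq_mul, ← hq, mul_comm]
    rw [Finset.sum_add_distrib, Finset.sum_const, Nat.card_Icc, nsmul_eq_mul,
      Nat.add_sub_cancel] at hF1
    have hz : ‖∑ p ∈ Q, c p 0‖ ^ 2 ≤ ‖∑ p ∈ Q, ∫ y, F p y ∂(mm r)‖ ^ 2 + 3 * e1 * q ^ 2 := by
      refine pdc_sq _ _ e1 q (norm_nonneg _) ?_ ?_ he1.le he3 hq0
      · have e3 : ∑ p ∈ Q, c p 0 = ∑ p ∈ Q, ∫ y, F p y ∂(mm r) +
            ∑ p ∈ Q, (c p 0 - ∫ y, F p y ∂(mm r)) := by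
          rw [← Finset.sum_add_distrib]
          refine Finset.sum_congr rfl fun p _ => ?_
          ring
        rw [e3]
        refine (norm_add_le _ _).trans (add_le_add le_rfl ?_)
        refine (norm_sum_le _ _).trans ?_
        have h5 : ∀ p ∈ Q, ‖c p 0 - ∫ y, F p y ∂(mm r)‖ ≤ e1 := by
          intro p hp
          rw [← hfc p 0 h0]
          exact pdc_zero (F p) (G p) (hF p hp).1 (hGc p) e1 (hGF p hp)
        refine (Finset.sum_le_sum h5).trans ?_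
        rw [Finset.sum_const, nsmul_eq_mul, ← hq, mul_comm]
      · refine (norm_sum_le _ _).trans ?_
        have h5 : ∀ p ∈ Q, ‖∫ y, F p y ∂(mm r)‖ ≤ 1 := by
          intro p hp
          have h := norm_integral_le_of_norm_le_const (μ := mm r) (f := F p) (C := 1)
            (Eventually.of_forall fun x => (hF p hp).2.1 x)
          simpa using h
        refine (Finset.sum_le_sum h5).trans ?_
        rw [Finset.sum_const, nsmul_eq_mul, ← hq]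
        linarith
    have hq2 : q ^ 2 ≤ B ^ 2 := pow_le_pow_left₀ hq0 hqB 2
    have hB2 : 1 ≤ B ^ 2 := one_le_pow₀ hB1
    have hq20 : 0 ≤ q ^ 2 := by positivity
    have he2 : e1 ^ 2 ≤ 1 / 3 * e1 := by nlinarith
    have hc1 : 3 * e1 * q ^ 2 + 3 * e1 * q ^ 2 + 2 * (2 * (κ / 16) + 2 * e1 ^ 2) * q ^ 2 ≤
        κ / 2 * B ^ 2 := by
      have h5 : 3 * e1 + 3 * e1 + 2 * (2 * (κ / 16) + 2 * e1 ^ 2) ≤ κ / 2 := by linarith
      calc 3 * e1 * q ^ 2 + 3 * e1 * q ^ 2 + 2 * (2 * (κ / 16) + 2 * e1 ^ 2) * q ^ 2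
          = (3 * e1 + 3 * e1 + 2 * (2 * (κ / 16) + 2 * e1 ^ 2)) * q ^ 2 := by ring
        _ ≤ κ / 2 * q ^ 2 := mul_le_mul_of_nonneg_right h5 hq20
        _ ≤ κ / 2 * B ^ 2 := mul_le_mul_of_nonneg_left hq2 (by positivity)
    have hc2 : κ / 8 ≤ κ / 8 * B ^ 2 := le_mul_of_one_le_right (by positivity) hB2
    have hc3 : ‖∑ p ∈ Q, c p 0‖ ^ 2 + 4 * n₀ * q + 2 * (2 * (κ / 16) + 2 * e1 ^ 2) * q ^ 2 +
        κ / 8 + 3 * e1 * q ^ 2 ≤ ‖∑ p ∈ Q, ∫ y, F p y ∂(mm r)‖ ^ 2 + κ * B ^ 2 := by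
      have h5 : 0 ≤ κ * B ^ 2 := by positivity
      nlinarith
    calc ∑ y ∈ Icc 1 M, ‖∑ p ∈ Q, F p (S^[p * y] x)‖ ^ 2
        ≤ (‖∑ p ∈ Q, c p 0‖ ^ 2 + 4 * n₀ * q + 2 * (2 * (κ / 16) + 2 * e1 ^ 2) * q ^ 2 +
            κ / 8) * M + M * (3 * e1 * q ^ 2) := hF1.trans (add_le_add hMM le_rfl)
      _ = (‖∑ p ∈ Q, c p 0‖ ^ 2 + 4 * n₀ * q + 2 * (2 * (κ / 16) + 2 * e1 ^ 2) * q ^ 2 +
            κ / 8 + 3 * e1 * q ^ 2) * M := by ring
      _ ≤ _ := mul_le_mul_of_nonneg_right hc3 hM0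
  · intro p hp
    have h5 := pdc_mass h3 (G p) (hGc p) (4 / 3) (hG1 p hp) Fs
    have h6 : ∑ X ∈ Fs, ‖c p X‖ ^ 2 = ∑ X ∈ Fs, ‖AZ.fc (G p) X‖ ^ 2 :=
      Finset.sum_congr rfl fun X hX => by rw [hfc p X hX]
    rw [h6]
    refine h5.trans ?_
    norm_num
  · intro p hp F' hF' hhigh
    have h6 : ∑ X ∈ F', ‖c p X‖ ^ 2 = ∑ X ∈ F', ‖AZ.fc (G p) X‖ ^ 2 :=
      Finset.sum_congr rfl fun X hX => by rw [hfc p X (hF' hX)]
    rw [h6]
    refine pdc_high h3 (F p) (G p) (hF p hp).1 (hGc p) e1 (κ / 16) (hGF p hp) F' ?_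
    refine (h4 r (F p) (2 ^ m) δ (hF p hp).1 Nat.one_le_two_pow hδ.le ?_ F' hhigh).trans hδ2
    intro θ s hs
    refine (hF p hp).2.2 _ _ ?_
    rw [dist_eq_norm, add_sub_cancel_left]
    refine hs.trans ?_
    have e4 : (1 : ℝ) / ((2 ^ m : ℕ) : ℝ) = Real.exp (-(m * Real.log 2)) := by
      rw [Real.exp_neg, ← Real.log_pow, Real.exp_log (by positivity)]
      push_cast
      rw [one_div]
    rw [e4]
    refine Real.exp_le_exp.2 ?_
    have h7 : κ / 128 * 2 ^ i * Real.log 2 ≤ m * Real.log 2 :=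
      mul_le_mul_of_nonneg_right hm1 hlog.le
    have h8 : -(κ * Real.log 2 / 128) * 2 ^ i = -(κ / 128 * 2 ^ i * Real.log 2) := by ring
    rw [h8]
    linarith
  · intro j z hz S' hS' hex
    rw [hn₀, Nat.le_div_iff_mul_le (by omega)]
    have h5 := h2 i m (lev j) z hz S' (hS'.trans hQ) hex
    have h6 : (i + 1) * (lev j + 1) ≤ (i + 1) * (K₀ + 1) :=
      Nat.mul_le_mul_left _ (Nat.succ_le_succ (hK j))
    rw [mul_comm]
    omega

end Pool.Agent.Helper16.CZ
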